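import Pool.Agent.Helper86.TK.Defs

open Set

namespace Pool.Agent.Helper86.TK

open Cardinal in
theorem cof_inj {A B : Type} (f : A → B) (hf : Function.Injective f) (c : Cardinal.{0})
    (h : ∃ (D : Set (Set B)), #D ≤ c ∧ (∀ d ∈ D, d.Countable) ∧
      ∀ H : Set B, H.Countable → ∃ d ∈ D, H ⊆ d) :
    ∃ (D : Set (Set A)), #D ≤ c ∧ (∀ d ∈ D, d.Countable) ∧
      ∀ H : Set A, H.Countable → ∃ d ∈ D, H ⊆ d := by
  obtain ⟨D, hD, hc, hH⟩ := h
  refine ⟨(fun d => f ⁻¹' d) '' D, mk_image_le.trans hD, ?_, ?_⟩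
  · rintro _ ⟨d, hd, rfl⟩
    exact (hc d hd).preimage_of_injOn hf.injOn
  · intro H hHc
    obtain ⟨d, hd, hsub⟩ := hH (f '' H) (hHc.image f)
    exact ⟨_, ⟨d, hd, rfl⟩, Set.image_subset_iff.1 hsub⟩

open Cardinal in
theorem st_COF : ST_COF := by
  intro n
  induction n with
  | zero =>
    intro A hA
    have hA' : Countable A := by
      rw [← mk_le_aleph0_iff]
      simpa using hA
    refine ⟨{Set.univ}, ?_, ?_, ?_⟩
    · simp only [mk_fintype, Fintype.card_unique, Nat.cast_one]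
      exact one_le_aleph0.trans (aleph0_le_aleph _)
    · rintro d rfl
      exact Set.countable_univ
    · intro H _
      exact ⟨_, rfl, Set.subset_univ _⟩
  | succ n ih =>
    intro A hA
    have e1 : ((n + 1 : ℕ) : Ordinal.{0}) = (n : Ordinal.{0}) + 1 := by push_cast; rfl
    rw [e1] at hA ⊢
    have hreg := isRegular_aleph_add_one (n : Ordinal.{0})
    have hW : #(ℵ_ ((n : Ordinal.{0}) + 1)).ord.ToType = ℵ_ ((n : Ordinal.{0}) + 1) :=
      mk_ord_toType _
    have hinj : ∃ f : A → (ℵ_ ((n : Ordinal.{0}) + 1)).ord.ToType, Function.Injective f := by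
      have : #A ≤ #(ℵ_ ((n : Ordinal.{0}) + 1)).ord.ToType := by rw [hW]; exact hA
      obtain ⟨f⟩ := this
      exact ⟨f, f.injective⟩
    obtain ⟨f, hf⟩ := hinj
    apply cof_inj f hf
    have hI : ∀ x : (ℵ_ ((n : Ordinal.{0}) + 1)).ord.ToType, #(Set.Iio x) ≤ ℵ_ (n : Ordinal.{0}) := by
      intro x
      rw [← Order.lt_succ_iff, succ_aleph]
      have := mk_Iio_lt x (by simp)
      rwa [hW] at this
    have hx := fun x => ih (Set.Iio x) (hI x)
    choose D hD hc hH using hx
    refine ⟨⋃ x, (fun d => Subtype.val '' d) '' D x, ?_, ?_, ?_⟩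
    · refine (mk_iUnion_le_sum_mk).trans ?_
      calc (sum fun x => #((fun d => Subtype.val '' d) '' D x : Set (Set _)))
          ≤ sum (fun _ : (ℵ_ ((n : Ordinal.{0}) + 1)).ord.ToType => ℵ_ (n : Ordinal.{0})) :=
            sum_le_sum _ _ (fun x => mk_image_le.trans (hD x))
        _ = ℵ_ ((n : Ordinal.{0}) + 1) * ℵ_ (n : Ordinal.{0}) := by
            rw [sum_const', hW]
        _ ≤ ℵ_ ((n : Ordinal.{0}) + 1) := by
            refine (mul_le_max_of_aleph0_le_left (aleph0_le_aleph _)).trans ?_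
            refine max_le le_rfl ?_
            rw [← succ_aleph]
            exact Order.le_succ _
    · intro d hd
      obtain ⟨x, hx⟩ := Set.mem_iUnion.1 hd
      obtain ⟨d', hd', rfl⟩ := hx
      exact (hc x d' hd').image _
    · intro H hHc
      have hnc : ¬ IsCofinal H := by
        intro hcof
        have h1 := Order.cof_le hcof
        rw [Ordinal.cof_toType, hreg.cof_ord] at h1
        have h2 : #H ≤ ℵ₀ := by
          rw [mk_le_aleph0_iff]
          exact hHc.to_subtype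
        have h3 : ℵ₀ < ℵ_ ((n : Ordinal.{0}) + 1) := by
          rw [aleph0_lt_aleph]
          exact lt_of_le_of_lt zero_le (Order.lt_add_one_iff.2 le_rfl)
        exact absurd (h3.trans_le (h1.trans h2)) (lt_irrefl _)
      obtain ⟨x, hx⟩ := not_isCofinal_iff.1 hnc
      obtain ⟨d, hd, hsub⟩ := hH x (Subtype.val ⁻¹' H) (hHc.preimage_of_injOn Subtype.val_injective.injOn)
      refine ⟨_, Set.mem_iUnion.2 ⟨x, d, hd, rfl⟩, ?_⟩
      intro y hy
      exact ⟨⟨y, hx y hy⟩, hsub hy, rfl⟩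

end Pool.Agent.Helper86.TK
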